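import Pool.Agent.V5helper49.LR.Stm3
import Pool.Agent.V5helper70.LR.PRB

/-! Project LR, job PRB2 (adaptation of `V5helper70.LR.PRB`). -/

set_option autoImplicit false

namespace Pool.Agent.V5helper84.LR

open Finset MeasureTheory ProbabilityTheory Filter
open scoped ENNReal
open Pool.Agent.V5helper49.LR
open Pool.Agent.V5helper70.LR (sm mem_sm dvd_primorial dvd_primorial' num n0 n0_spec n0_congr Ok_congr)
open Pool.Agent.V5helper42.RS (EE S PP W model EE_mono EE_congr EE_const EE_le_const EE_append prob_le ae_lt)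

universe u

lemma z1_le_yy (ε : ℝ) (hε : 0 < ε) : ∃ X₀ : ℕ, ∀ X : ℕ, X₀ ≤ X → z1 X ≤ yy ε X := by
  have hlog : Tendsto (fun X : ℕ => Real.log X) atTop atTop := Real.tendsto_log_atTop.comp tendsto_natCast_atTop_atTop
  have h1 := (isLittleO_log_rpow_atTop (show (0 : ℝ) < ε / 4 by positivity)).bound (show (0 : ℝ) < 1 by norm_num)
  obtain ⟨X₀, hX₀⟩ := eventually_atTop.1 (hlog.eventually (h1.and (eventually_ge_atTop (1 : ℝ))))
  refine ⟨X₀, fun X hX => ?_⟩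
  obtain ⟨h2, h3⟩ := hX₀ X hX
  rw [Real.norm_of_nonneg (Real.log_nonneg h3), Real.norm_of_nonneg (by positivity), one_mul] at h2
  unfold z1 yy
  apply Nat.floor_le_floor
  calc Real.log X / 4 ≤ Real.log X := by linarith
    _ = Real.exp (Real.log (Real.log X)) := (Real.exp_log (by linarith)).symm
    _ ≤ Real.exp (Real.log X ^ (ε / 4)) := Real.exp_le_exp.2 h2

open Classical in
/-- the numbers of the intervals which survive the medium primes -/
noncomputable def sel (ε : ℝ) (X N Q n : ℕ) (T : Finset ℕ) (ρ : ℕ → ℕ) : Finset ℕ :=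
  (range N).filter (fun s => ∀ p : ℕ, p.Prime → z1 X < p → p ≤ yy ε X → ∀ t ∈ T, (n + Q * s + t) % p ≠ ρ p)

lemma mem_sel (ε : ℝ) (X N Q n : ℕ) (T : Finset ℕ) (ρ : ℕ → ℕ) (s : ℕ) : s ∈ sel ε X N Q n T ρ ↔
    s < N ∧ ∀ p : ℕ, p.Prime → z1 X < p → p ≤ yy ε X → ∀ t ∈ T, (n + Q * s + t) % p ≠ ρ p := by
  classical
  unfold sel
  rw [mem_filter, mem_range]

lemma sel_congr (ε : ℝ) (X N Q n : ℕ) (T : Finset ℕ) {ρ ρ' : ℕ → ℕ} (h : ∀ p ∈ sm (yy ε X), ρ p = ρ' p) :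
    sel ε X N Q n T ρ = sel ε X N Q n T ρ' := by
  ext s
  rw [mem_sel, mem_sel]
  constructor
  · rintro ⟨h1, h2⟩
    refine ⟨h1, fun p hp hp1 hp2 t ht => ?_⟩
    rw [← h p ((mem_sm _ _).2 ⟨hp, hp2⟩)]
    exact h2 p hp hp1 hp2 t ht
  · rintro ⟨h1, h2⟩
    refine ⟨h1, fun p hp hp1 hp2 t ht => ?_⟩
    rw [h p ((mem_sm _ _).2 ⟨hp, hp2⟩)]
    exact h2 p hp hp1 hp2 t ht

open Classical in
theorem t_PRB2 (hFIX : S_FIX2) (hPAT : S_PAT2) (hBRN : S_BRN) : S_PRB2.{u} := by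
  intro ε hε hε1
  obtain ⟨X1, h1⟩ := hFIX ε hε hε1
  obtain ⟨X2, h2⟩ := hPAT ε hε hε1
  obtain ⟨X3, h3⟩ := num
  obtain ⟨X5, h5⟩ := hBRN ε hε hε1
  obtain ⟨X6, h6⟩ := z1_le_yy ε hε
  refine ⟨X1 + X2 + X3 + X5 + X6 + 1, fun X hX H T hH hT hTc hadm => ?_⟩
  intro Ω _ μ _ a hm hi hu
  obtain ⟨hz2, i, hHi, hN⟩ := h3 X (by omega) ε hε hε1 H hH
  have hzy : z1 X ≤ yy ε X := h6 X (by omega)
  choose! b hb1 hb2 using hadm
  obtain ⟨Q, hQ⟩ : ∃ Q : ℕ, Q = primorial (z1 X) * 2 ^ i := ⟨_, rfl⟩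
  obtain ⟨N, hNd⟩ : ∃ N : ℕ, N = X / (2 * Q) := ⟨_, rfl⟩
  rw [← hQ, ← hNd] at hN
  have hPpos := primorial_pos (z1 X)
  have hPQ : primorial (z1 X) ≤ Q := by
    rw [hQ]
    exact Nat.le_mul_of_pos_right _ (by positivity)
  have hHQ : H < Q := by
    rw [hQ]
    exact hHi.trans_le (Nat.le_mul_of_pos_left _ hPpos)
  have hQN2 : Q * N * 2 ≤ X := by
    rw [hNd]
    have := Nat.div_mul_le_self X (2 * Q)
    calc Q * (X / (2 * Q)) * 2 = X / (2 * Q) * (2 * Q) := by ring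
      _ ≤ X := this
  have hQQ : ∀ p : ℕ, p.Prime → z1 X < p → ¬ p ∣ Q := by
    intro p hp1 hp2 hd
    rw [hQ] at hd
    rcases (Nat.Prime.dvd_mul hp1).1 hd with h | h
    · have := ((mem_sm _ _).1 (dvd_primorial' hp1 h)).2
      omega
    · have h4 := hp1.dvd_of_dvd_pow h
      have h5 := Nat.le_of_dvd (by norm_num) h4
      omega
  -- the places
  obtain ⟨A, hA⟩ : ∃ A : (ℕ → ℕ) → Finset ℕ, A = fun ρ => (sel ε X N Q (n0 X (z1 X) b hb1 ρ) T ρ).image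
    (fun s => n0 X (z1 X) b hb1 ρ + Q * s) := ⟨_, rfl⟩
  have hAcongr : ∀ ρ ρ' : ℕ → ℕ, (∀ p ∈ sm (yy ε X), ρ p = ρ' p) → A ρ = A ρ' := by
    intro ρ ρ' h
    have h7 : n0 X (z1 X) b hb1 ρ = n0 X (z1 X) b hb1 ρ' :=
      n0_congr X (z1 X) b hb1 (fun p hp => h p ((mem_sm _ _).2 ⟨((mem_sm _ _).1 hp).1, ((mem_sm _ _).1 hp).2.trans hzy⟩))
    simp only [hA, h7, sel_congr ε X N Q (n0 X (z1 X) b hb1 ρ') T h]
  have hAcard : ∀ ρ, (X : ℝ) ^ (1 / 5 : ℝ) ≤ (A ρ).card := by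
    intro ρ
    rw [hA]
    simp only
    rw [card_image_of_injective]
    · exact h5 X (by omega) T hTc Q N hQQ hN (n0 X (z1 X) b hb1 ρ) ρ
    · intro s s' hss
      simp only at hss
      exact Nat.eq_of_mul_eq_mul_left (by omega : 0 < Q) (by omega)
  have hAsep : ∀ ρ, ∀ m ∈ A ρ, ∀ n ∈ A ρ, m < n → H < n - m ∧ n - m ≤ X := by
    intro ρ m hmm n hn hmn
    rw [hA] at hmm hn
    obtain ⟨s, hs, rfl⟩ := mem_image.1 hmm
    obtain ⟨s', hs', rfl⟩ := mem_image.1 hn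
    have h7 := ((mem_sel _ _ _ _ _ _ _ _).1 hs').1
    have h8 : s < s' := by
      by_contra hcon
      push Not at hcon
      have := Nat.mul_le_mul_left Q hcon
      omega
    obtain ⟨δ, rfl⟩ : ∃ δ, s' = s + 1 + δ := ⟨s' - s - 1, by omega⟩
    have h9 : Q * (s + 1 + δ) ≤ Q * N := Nat.mul_le_mul_left _ h7.le
    have h10 : Q * (s + 1 + δ) = Q * s + Q + Q * δ := by ring
    rw [h10] at h9 ⊢
    constructor
    · omega
    · omega
  -- the bad event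
  obtain ⟨Bad, hBad⟩ : ∃ Bad : (ℕ → ℕ) → Prop, Bad = fun ρ => ∀ n ∈ A ρ, ¬ Ok T (range (H + 1) \ T) (B2 ε X) (Q2 ε X).toList n ρ := ⟨_, rfl⟩
  have hdisj : ∀ p ∈ sm (yy ε X), p ∉ Q2 ε X := by
    intro p hp hq
    have h4 := ((mem_sm _ _).1 hp).2
    have h5 := (mem_Ioc.1 (mem_filter.1 hq).1).1
    omega
  have hprob : μ {ω | Bad (fun q => a q ω)} ≤ ENNReal.ofReal (Real.exp (-(Real.log X ^ (ε / 4) / 3))) := by
    refine prob_le μ a hm hi hu ((sm (yy ε X)).toList ++ (Q2 ε X).toList) ?_ ?_ Bad ?_ (fun ρ => if Bad ρ then 1 else 0) ?_ ?_ _ ?_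
    · refine List.nodup_append.2 ⟨nodup_toList _, nodup_toList _, ?_⟩
      intro p hp q hq hpq
      subst hpq
      exact hdisj p (mem_toList.1 hp) (mem_toList.1 hq)
    · intro p hp
      rcases List.mem_append.1 hp with h | h
      · exact ((mem_sm _ _).1 (mem_toList.1 h)).1
      · exact (mem_filter.1 (mem_toList.1 h)).2
    · intro ρ ρ' h hρ
      rw [hBad] at hρ ⊢
      intro n hn
      rw [← hAcongr ρ ρ' (fun p hp => h p (List.mem_append_left _ (mem_toList.2 hp)))] at hn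
      rw [← Ok_congr T _ _ _ _ (fun p hp => h p (List.mem_append_right _ hp))]
      exact hρ n hn
    · intro ρ
      split_ifs <;> norm_num
    · intro ρ hρ
      simp only [hρ, if_true, le_refl]
    · rw [EE_append]
      apply EE_le_const _ (fun p hp => ((mem_sm _ _).1 (mem_toList.1 hp)).1.pos)
      intro ρ _ _
      refine le_trans (le_of_eq ?_) (h1 X (by omega) H T hH hT hTc (A ρ) (hAcard ρ) (hAsep ρ) ρ)
      apply EE_congr
      intro σ hσ _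
      have h4 : A σ = A ρ := hAcongr σ ρ (fun p hp => hσ p (fun h => hdisj p hp (mem_toList.1 h)))
      simp only [hBad, h4]
  refine le_trans (measure_mono_ae ?_) hprob
  filter_upwards [ae_lt μ a hm hu] with ω hω hnot
  by_contra hcon
  apply hnot
  have hcon' : ¬ Bad (fun q => a q ω) := hcon
  rw [hBad] at hcon'
  push Not at hcon'
  obtain ⟨n, hn, hOk⟩ := hcon'
  rw [hA] at hn
  obtain ⟨s, hs0, rfl⟩ := mem_image.1 hn
  obtain ⟨hs, hs2⟩ := (mem_sel _ _ _ _ _ _ _ _).1 hs0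
  obtain ⟨hn1, hn2, hn3⟩ := n0_spec X (z1 X) b hb1 (fun q => a q ω)
  have hsN : Q * s + Q ≤ Q * N := by
    have : s + 1 ≤ N := hs
    calc Q * s + Q = Q * (s + 1) := by ring
      _ ≤ Q * N := Nat.mul_le_mul_left _ this
  have hle : n0 X (z1 X) b hb1 (fun q => a q ω) + Q * s ≤ 2 * X := by omega
  refine ⟨n0 X (z1 X) b hb1 (fun q => a q ω) + Q * s, by omega, hle, ?_⟩
  refine h2 X (by omega) H T hH hT (fun q => a q ω) hω _ (by omega) hle ?_ hOk
  intro p hp hpy t ht heq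
  by_cases hpz : p ≤ z1 X
  · have hps : p ∈ sm (z1 X) := (mem_sm _ _).2 ⟨hp, hpz⟩
    have h4 := hn3 p hps
    have h5 : p ∣ Q := by
      rw [hQ]
      exact Dvd.dvd.mul_right (dvd_primorial hps) _
    have h6 : Q * s ≡ 0 [MOD p] := (Nat.modEq_zero_iff_dvd).2 (Dvd.dvd.mul_right h5 _)
    have h7 : n0 X (z1 X) b hb1 (fun q => a q ω) + Q * s + t ≡ a p ω [MOD p] := by
      unfold Nat.ModEq
      rw [heq, Nat.mod_eq_of_lt (hω p hp)]
    have h8 : n0 X (z1 X) b hb1 (fun q => a q ω) + Q * s + t ≡ n0 X (z1 X) b hb1 (fun q => a q ω) + t [MOD p] := by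
      have := (Nat.ModEq.add_left (n0 X (z1 X) b hb1 (fun q => a q ω)) h6).add_right t
      simpa using this
    have h9 : n0 X (z1 X) b hb1 (fun q => a q ω) + t ≡ n0 X (z1 X) b hb1 (fun q => a q ω) + b p [MOD p] :=
      h8.symm.trans (h7.trans h4.symm)
    have h10 := Nat.ModEq.add_left_cancel' _ h9
    have h11 : t % p = b p % p := h10
    rw [Nat.mod_eq_of_lt (hb1 p hp)] at h11
    exact hb2 p hp t ht h11
  · exact hs2 p hp (by omega) hpy t ht heq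

end Pool.Agent.V5helper84.LR
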