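import Pool.Agent.V5helper49.LR.Stm3

/-! Project LR, job UNI: union bound and Borel-Cantelli. -/

set_option autoImplicit false

namespace Pool.Agent.V5helper84.LR

open Finset MeasureTheory ProbabilityTheory Filter
open scoped ENNReal
open Pool.Agent.V5helper49.LR
open Pool.Agent.V5helper42.RS (EE S PP W model)

universe u

/-- the number of the small subsets -/
lemma card_small (N K : ℕ) : ((range N).powerset.filter (fun T => T.card ≤ K)).card ≤ (N + 1) ^ K := by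
  have h1 : ((range N).powerset.filter (fun T => T.card ≤ K)) = (range (K + 1)).biUnion (fun i => (range N).powersetCard i) := by
    ext T
    simp only [mem_filter, mem_powerset, mem_biUnion, mem_range, mem_powersetCard]
    constructor
    · rintro ⟨h1, h2⟩
      exact ⟨T.card, by omega, h1, rfl⟩
    · rintro ⟨i, hi, h1, h2⟩
      exact ⟨h1, by omega⟩
  rw [h1]
  refine card_biUnion_le.trans ?_
  rw [add_pow]
  apply sum_le_sum
  intro i hi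
  rw [card_powersetCard, card_range, one_pow, mul_one]
  have h2 : 0 < K.choose i := Nat.choose_pos (by have := mem_range.1 hi; omega)
  exact (Nat.choose_le_pow N i).trans (Nat.le_mul_of_pos_right _ h2)

lemma numU (e : ℝ) (he : 0 < e) (_he1 : e ≤ 1) : ∀ᶠ L : ℝ in atTop, ∀ K H : ℕ, (K : ℝ) ≤ L ^ (e / 8) → (H : ℝ) ≤ L ^ (2 - e) →
    (((H + 1 + 1) ^ K : ℕ) : ℝ) * Real.exp (-(L ^ (e / 4) / 3)) ≤ 1 / (2 * L) ^ 2 := by
  have h1 := (isLittleO_log_rpow_atTop (show (0 : ℝ) < e / 8 by positivity)).bound (show (0 : ℝ) < 1 / 36 by norm_num)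
  have h2 := (isLittleO_log_rpow_atTop (show (0 : ℝ) < e / 4 by positivity)).bound (show (0 : ℝ) < 1 / 16 by norm_num)
  filter_upwards [h1, h2, eventually_ge_atTop (2 : ℝ)] with L g1 g2 g3 K H hK hH
  have hL0 : 0 < L := by linarith
  have hlog0 : 0 ≤ Real.log L := Real.log_nonneg (by linarith)
  rw [Real.norm_of_nonneg hlog0, Real.norm_of_nonneg (by positivity)] at g1 g2
  have hH2 : (H : ℝ) ≤ L ^ 2 := by
    refine hH.trans ?_
    rw [← Real.rpow_natCast]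
    apply Real.rpow_le_rpow_of_exponent_le (by linarith)
    push_cast
    linarith
  have hH3 : (H : ℝ) + 1 + 1 ≤ L ^ 3 := by
    nlinarith [sq_nonneg L, mul_pos hL0 hL0]
  have hH4 : (H : ℝ) + 1 + 1 ≤ Real.exp (3 * Real.log L) := by
    have : Real.exp (3 * Real.log L) = L ^ 3 := by
      rw [show (3 : ℝ) * Real.log L = ((3 : ℕ) : ℝ) * Real.log L by norm_num, Real.exp_nat_mul, Real.exp_log hL0]
    rw [this]
    exact hH3
  have h3 : (((H + 1 + 1) ^ K : ℕ) : ℝ) ≤ Real.exp (L ^ (e / 4) / 12) := by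
    push_cast
    calc ((H : ℝ) + 1 + 1) ^ K ≤ Real.exp (3 * Real.log L) ^ K := by gcongr
      _ = Real.exp (K * (3 * Real.log L)) := by rw [Real.exp_nat_mul]
      _ ≤ Real.exp (L ^ (e / 4) / 12) := by
        apply Real.exp_le_exp.2
        have h4 : L ^ (e / 4) = L ^ (e / 8) * L ^ (e / 8) := by
          rw [← Real.rpow_add hL0]; congr 1; ring
        have h5 : 0 ≤ L ^ (e / 8) := by positivity
        calc (K : ℝ) * (3 * Real.log L) ≤ L ^ (e / 8) * (3 * (1 / 36 * L ^ (e / 8))) := by gcongr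
          _ = L ^ (e / 4) / 12 := by rw [h4]; ring
  calc (((H + 1 + 1) ^ K : ℕ) : ℝ) * Real.exp (-(L ^ (e / 4) / 3))
      ≤ Real.exp (L ^ (e / 4) / 12) * Real.exp (-(L ^ (e / 4) / 3)) := by gcongr
    _ = Real.exp (-(L ^ (e / 4) / 4)) := by rw [← Real.exp_add]; congr 1; ring
    _ ≤ Real.exp (-(4 * Real.log L)) := by
        apply Real.exp_le_exp.2
        linarith
    _ = (L ^ 4)⁻¹ := by
        rw [Real.exp_neg, show (4 : ℝ) * Real.log L = ((4 : ℕ) : ℝ) * Real.log L by norm_num, Real.exp_nat_mul, Real.exp_log hL0]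
    _ ≤ 1 / (2 * L) ^ 2 := by
        rw [← one_div]
        apply one_div_le_one_div_of_le (by positivity)
        nlinarith [mul_pos hL0 hL0, sq_nonneg (L ^ 2)]

open Classical in
/-- one exponent -/
lemma one_exp (hPRB : S_PRB2.{u}) {Ω : Type u} [MeasurableSpace Ω] (μ : Measure Ω) [IsProbabilityMeasure μ] (a : ℕ → Ω → ℕ)
    (hm : ∀ p, Measurable (a p)) (hi : iIndepFun a μ) (hu : ∀ p : ℕ, p.Prime → ∀ r < p, μ {ω | a p ω = r} = (p : ℝ≥0∞)⁻¹)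
    (e : ℝ) (he : 0 < e) (he1 : e ≤ 1) : ∀ᵐ ω ∂μ, ∀ᶠ j : ℕ in atTop, ∀ T : Finset ℕ,
      T ⊆ range (⌊Real.log ((2 ^ j : ℕ) : ℝ) ^ (2 - e)⌋₊ + 1) → (T.card : ℝ) ≤ Real.log ((2 ^ j : ℕ) : ℝ) ^ (e / 8) →
      (∀ p : ℕ, p.Prime → ∃ b < p, ∀ t ∈ T, t % p ≠ b) →
      ∃ n : ℕ, 2 ^ j < n ∧ n ≤ 2 * 2 ^ j ∧ Ex (model fun p => a p ω) n ⌊Real.log ((2 ^ j : ℕ) : ℝ) ^ (2 - e)⌋₊ T := by
  obtain ⟨X₀, hX₀⟩ := hPRB e he he1
  -- the logarithm
  have hlogj : ∀ j : ℕ, Real.log ((2 ^ j : ℕ) : ℝ) = j * Real.log 2 := by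
    intro j
    push_cast
    rw [Real.log_pow]
  have hlt : Tendsto (fun j : ℕ => Real.log ((2 ^ j : ℕ) : ℝ)) atTop atTop := by
    have : Tendsto (fun j : ℕ => (j : ℝ) * Real.log 2) atTop atTop :=
      tendsto_natCast_atTop_atTop.atTop_mul_const (Real.log_pos (by norm_num))
    exact this.congr (fun j => (hlogj j).symm)
  obtain ⟨j₀, hj₀⟩ := eventually_atTop.1 (hlt.eventually (numU e he he1))
  -- the bad events
  obtain ⟨F, hF⟩ : ∃ F : ℕ → Finset ℕ → Set Ω, F = fun j T => {ω | ¬ ∃ n : ℕ, 2 ^ j < n ∧ n ≤ 2 * 2 ^ j ∧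
    Ex (model fun p => a p ω) n ⌊Real.log ((2 ^ j : ℕ) : ℝ) ^ (2 - e)⌋₊ T} := ⟨_, rfl⟩
  obtain ⟨𝒯, h𝒯⟩ : ∃ 𝒯 : ℕ → Finset (Finset ℕ), 𝒯 = fun j => (range (⌊Real.log ((2 ^ j : ℕ) : ℝ) ^ (2 - e)⌋₊ + 1)).powerset.filter
    (fun T => (T.card : ℝ) ≤ Real.log ((2 ^ j : ℕ) : ℝ) ^ (e / 8) ∧ ∀ p : ℕ, p.Prime → ∃ b < p, ∀ t ∈ T, t % p ≠ b) := ⟨_, rfl⟩
  have hcard : ∀ j : ℕ, (𝒯 j).card ≤ (⌊Real.log ((2 ^ j : ℕ) : ℝ) ^ (2 - e)⌋₊ + 1 + 1) ^ ⌊Real.log ((2 ^ j : ℕ) : ℝ) ^ (e / 8)⌋₊ := by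
    intro j
    refine le_trans (card_le_card ?_) (card_small _ _)
    rw [h𝒯]
    intro T hT
    obtain ⟨h1, h2, h3⟩ := mem_filter.1 hT
    exact mem_filter.2 ⟨h1, Nat.le_floor h2⟩
  obtain ⟨s, hs⟩ : ∃ s : ℕ → Set Ω, s = fun j => if j₀ + X₀ + 1 ≤ j then ⋃ T ∈ 𝒯 j, F j T else ∅ := ⟨_, rfl⟩
  have hbound : ∀ j : ℕ, μ (s j) ≤ ENNReal.ofReal (1 / (j : ℝ) ^ 2) := by
    intro j
    rw [hs]
    by_cases hj : j₀ + X₀ + 1 ≤ j
    · simp only [hj, if_true]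
      have hlog0 : 0 ≤ Real.log ((2 ^ j : ℕ) : ℝ) := by
        rw [hlogj]
        have := Real.log_pos (show (1 : ℝ) < 2 by norm_num)
        positivity
      have hX : X₀ ≤ 2 ^ j := by
        have := Nat.lt_two_pow_self (n := j)
        omega
      have hone : ∀ T ∈ 𝒯 j, μ (F j T) ≤ ENNReal.ofReal (Real.exp (-(Real.log ((2 ^ j : ℕ) : ℝ) ^ (e / 4) / 3))) := by
        intro T hT
        rw [h𝒯] at hT
        obtain ⟨h1, h2, h3⟩ := mem_filter.1 hT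
        rw [hF]
        exact hX₀ (2 ^ j) hX ⌊Real.log ((2 ^ j : ℕ) : ℝ) ^ (2 - e)⌋₊ T (Nat.floor_le (by positivity)) (mem_powerset.1 h1) h2 h3 μ a hm hi hu
      calc μ (⋃ T ∈ 𝒯 j, F j T) ≤ ∑ T ∈ 𝒯 j, μ (F j T) := measure_biUnion_finset_le _ _
        _ ≤ ∑ T ∈ 𝒯 j, ENNReal.ofReal (Real.exp (-(Real.log ((2 ^ j : ℕ) : ℝ) ^ (e / 4) / 3))) := sum_le_sum hone
        _ = ((𝒯 j).card : ℝ≥0∞) * ENNReal.ofReal (Real.exp (-(Real.log ((2 ^ j : ℕ) : ℝ) ^ (e / 4) / 3))) := by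
            rw [sum_const, nsmul_eq_mul]
        _ ≤ (((⌊Real.log ((2 ^ j : ℕ) : ℝ) ^ (2 - e)⌋₊ + 1 + 1) ^ ⌊Real.log ((2 ^ j : ℕ) : ℝ) ^ (e / 8)⌋₊ : ℕ) : ℝ≥0∞) *
            ENNReal.ofReal (Real.exp (-(Real.log ((2 ^ j : ℕ) : ℝ) ^ (e / 4) / 3))) := by
            gcongr
            exact_mod_cast hcard j
        _ = ENNReal.ofReal ((((⌊Real.log ((2 ^ j : ℕ) : ℝ) ^ (2 - e)⌋₊ + 1 + 1) ^ ⌊Real.log ((2 ^ j : ℕ) : ℝ) ^ (e / 8)⌋₊ : ℕ) : ℝ) *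
            Real.exp (-(Real.log ((2 ^ j : ℕ) : ℝ) ^ (e / 4) / 3))) := by
            rw [ENNReal.ofReal_mul (by positivity), ENNReal.ofReal_natCast]
        _ ≤ ENNReal.ofReal (1 / (j : ℝ) ^ 2) := by
            apply ENNReal.ofReal_le_ofReal
            refine (hj₀ j (by omega) _ _ (Nat.floor_le (by positivity)) (Nat.floor_le (by positivity))).trans ?_
            apply one_div_le_one_div_of_le
            · have : (0 : ℝ) < j := by
                have : 0 < j := by omega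
                exact_mod_cast this
              positivity
            · have h5 : (j : ℝ) ≤ 2 * Real.log ((2 ^ j : ℕ) : ℝ) := by
                rw [hlogj]
                have := Real.log_two_gt_d9
                have hj0 : (0 : ℝ) ≤ j := by positivity
                nlinarith
              gcongr
    · simp only [hj, if_false, measure_empty, zero_le]
  have hsum : ∑' j, μ (s j) ≠ ∞ := by
    refine ne_top_of_le_ne_top ?_ (ENNReal.tsum_le_tsum hbound)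
    have h6 : Summable (fun j : ℕ => 1 / (j : ℝ) ^ 2) := Real.summable_one_div_nat_pow.2 (by norm_num)
    rw [← ENNReal.ofReal_tsum_of_nonneg (fun j => by positivity) h6]
    exact ENNReal.ofReal_ne_top
  filter_upwards [ae_eventually_notMem hsum] with ω hω
  filter_upwards [hω, eventually_ge_atTop (j₀ + X₀ + 1)] with j h7 h8 T hT hTc hadm
  by_contra hcon
  apply h7
  rw [hs]
  simp only [h8, if_true]
  have hmem : T ∈ 𝒯 j := by
    rw [h𝒯]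
    exact mem_filter.2 ⟨mem_powerset.2 hT, hTc, hadm⟩
  refine Set.mem_biUnion (s := {T | T ∈ 𝒯 j}) hmem ?_
  rw [hF]
  exact hcon

lemma exists_pow (x : ℝ) (hx : 1 < x) : ∃ j : ℕ, x ≤ ((2 ^ j : ℕ) : ℝ) ∧ ((2 ^ j : ℕ) : ℝ) < 2 * x := by
  refine ⟨Nat.clog 2 ⌈x⌉₊, ?_, ?_⟩
  · have h1 := Nat.le_pow_clog (b := 2) (by norm_num) ⌈x⌉₊
    calc x ≤ (⌈x⌉₊ : ℝ) := Nat.le_ceil x
      _ ≤ _ := by exact_mod_cast h1
  · have h0 : 1 < ⌈x⌉₊ := by
      rw [Nat.lt_ceil]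
      exact_mod_cast hx
    have h1 := Nat.pow_pred_clog_lt_self (b := 2) (by norm_num) h0
    rw [Nat.lt_ceil] at h1
    have h2 : 0 < Nat.clog 2 ⌈x⌉₊ := Nat.clog_pos (by norm_num) h0
    have h3 : Nat.clog 2 ⌈x⌉₊ = (Nat.clog 2 ⌈x⌉₊).pred + 1 := (Nat.succ_pred_eq_of_pos h2).symm
    rw [h3]
    push_cast
    push_cast at h1
    rw [pow_succ]
    linarith

theorem t_UNI (hPRB : S_PRB2.{u}) : S_UNI.{u} := by
  intro Ω _ μ _ a hm hi hu
  have key : ∀ᵐ ω ∂μ, ∀ q : ℚ, 0 < (q : ℝ) → (q : ℝ) ≤ 1 → ∀ᶠ j : ℕ in atTop, ∀ T : Finset ℕ,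
      T ⊆ range (⌊Real.log ((2 ^ j : ℕ) : ℝ) ^ (2 - (q : ℝ))⌋₊ + 1) → (T.card : ℝ) ≤ Real.log ((2 ^ j : ℕ) : ℝ) ^ ((q : ℝ) / 8) →
      (∀ p : ℕ, p.Prime → ∃ b < p, ∀ t ∈ T, t % p ≠ b) →
      ∃ n : ℕ, 2 ^ j < n ∧ n ≤ 2 * 2 ^ j ∧ Ex (model fun p => a p ω) n ⌊Real.log ((2 ^ j : ℕ) : ℝ) ^ (2 - (q : ℝ))⌋₊ T := by
    refine ae_all_iff.2 fun q => ?_
    by_cases hq : 0 < (q : ℝ) ∧ (q : ℝ) ≤ 1
    · filter_upwards [one_exp hPRB μ a hm hi hu (q : ℝ) hq.1 hq.2] with ω hω _ _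
      exact hω
    · exact Eventually.of_forall fun ω h1 h2 => absurd ⟨h1, h2⟩ hq
  filter_upwards [key] with ω hω ε hε hε1
  obtain ⟨q, hq1, hq2⟩ := exists_rat_btwn (show (4 * ε / 5 : ℝ) < ε by linarith)
  obtain ⟨j₀, hj₀⟩ := eventually_atTop.1 (hω q (by linarith) (by linarith))
  filter_upwards [eventually_gt_atTop ((2 ^ j₀ : ℕ) : ℝ), eventually_gt_atTop (1 : ℝ), Real.tendsto_log_atTop.eventually_ge_atTop 1]
    with x g1 g2 g3 H T hH hT hTc hadm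
  obtain ⟨j, hj1, hj2⟩ := exists_pow x g2
  have hjj : j₀ ≤ j := by
    have h1 : ((2 ^ j₀ : ℕ) : ℝ) < ((2 ^ j : ℕ) : ℝ) := g1.trans_le hj1
    have h2 : 2 ^ j₀ < 2 ^ j := by exact_mod_cast h1
    exact ((Nat.pow_lt_pow_iff_right (by norm_num)).1 h2).le
  have hlog : Real.log x ≤ Real.log ((2 ^ j : ℕ) : ℝ) := Real.log_le_log (by linarith) hj1
  have hH1 : (H : ℝ) ≤ Real.log ((2 ^ j : ℕ) : ℝ) ^ (2 - (q : ℝ)) := by
    refine hH.trans ((Real.rpow_le_rpow_of_exponent_le g3 ?_).trans (Real.rpow_le_rpow (by linarith) hlog ?_))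
    · linarith
    · linarith
  have hH2 : H ≤ ⌊Real.log ((2 ^ j : ℕ) : ℝ) ^ (2 - (q : ℝ))⌋₊ := Nat.le_floor hH1
  have hT1 : (T.card : ℝ) ≤ Real.log ((2 ^ j : ℕ) : ℝ) ^ ((q : ℝ) / 8) := by
    refine hTc.trans ((Real.rpow_le_rpow_of_exponent_le g3 ?_).trans (Real.rpow_le_rpow (by linarith) hlog ?_))
    · linarith
    · linarith
  obtain ⟨n, hn1, hn2, hn3⟩ := hj₀ j hjj T (hT.trans (range_mono (by omega))) hT1 hadm
  refine ⟨n, ?_, ?_, fun i hi' => hn3 i (hi'.trans hH2)⟩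
  · have : ((2 ^ j : ℕ) : ℝ) < n := by exact_mod_cast hn1
    linarith
  · have : (n : ℝ) ≤ 2 * ((2 ^ j : ℕ) : ℝ) := by exact_mod_cast hn2
    linarith

end Pool.Agent.V5helper84.LR
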